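import Pool.Agent.Y821.DD.Squares

/-!
# Sidon sets of squares: all constants below `(log 2) / 2`

For every `c < (log 2) / 2` the largest Sidon subset of `{1², …, N²}` has at most
`N ^ (1 - c / log log N)` elements for all large `N`.

Proof. The squares occupy `(p + 1) / 2` residue classes modulo an odd prime `p`. For a set `P` of
primes with product `d` the pigeonhole principle gives at least `|A|² 2 ^ |P| / ∏ (p + 1)` pairs with
the same residue modulo `d`, and a Sidon set has at most `|A| + 2 N² / d + 1` such pairs. By the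
prime number theorem for the residue class `1` modulo `4` one can take
`|P| ≥ (1 - ε) log N / log log N` large primes with `d ≤ N ^ (1 - ε')`.
-/

set_option autoImplicit false

namespace Pool.Agent.Results.MP_b27023_nt.HalfLogTwo

open Finset

/-- The squares `1², 2², …, N²`. -/
def squares (N : ℕ) : Finset ℕ := (Finset.Icc 1 N).image (fun a => a ^ 2)

/-- `A` is a Sidon set: `a + b = c + d` forces `{a, b} = {c, d}`. -/
def IsSidon (A : Finset ℕ) : Prop :=
  ∀ a ∈ A, ∀ b ∈ A, ∀ c ∈ A, ∀ d ∈ A, a + b = c + d → (a = c ∧ b = d) ∨ (a = d ∧ b = c)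

open Classical in
/-- The largest size of a Sidon subset of the first `N` positive squares. -/
noncomputable def fmax (N : ℕ) : ℕ :=
  ((squares N).powerset.filter IsSidon).sup Finset.card

/-- For every `c < (log 2) / 2`, Sidon subsets of `{1², …, N²}` have at most
`N ^ (1 - c / log log N)` elements, for all large `N`. -/
theorem result : ∀ c : ℝ, c < Real.log 2 / 2 → ∃ N₀ : ℕ, ∀ N : ℕ, N₀ ≤ N →
    (fmax N : ℝ) ≤ (N : ℝ) ^ (1 - c / Real.log (Real.log N)) := by
  classical
  intro c hc
  obtain ⟨n₀, h⟩ := Pool.Agent.Y821.DD.squares c hc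
  refine ⟨n₀, fun n hn => ?_⟩
  have hne : ((squares n).powerset.filter IsSidon).Nonempty := by
    refine ⟨∅, ?_⟩
    rw [mem_filter, mem_powerset]
    exact ⟨Finset.empty_subset _, fun a ha => absurd ha (Finset.notMem_empty a)⟩
  obtain ⟨S, hS, hcard⟩ := Finset.exists_mem_eq_sup _ hne Finset.card
  have hk : fmax n = S.card := by
    unfold fmax
    convert hcard
  rw [hk]
  rw [mem_filter, mem_powerset] at hS
  set A : Finset ℕ := (Finset.Icc 1 n).filter (fun a => a ^ 2 ∈ S) with hA
  have hinj : Function.Injective (fun a : ℕ => a ^ 2) := Nat.pow_left_injective (by norm_num)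
  have hAS : A.image (fun a => a ^ 2) = S := by
    ext s
    rw [mem_image]
    constructor
    · rintro ⟨a, ha, rfl⟩
      rw [hA, mem_filter] at ha
      exact ha.2
    · intro hs
      have := hS.1 hs
      rw [squares, mem_image] at this
      obtain ⟨a, ha, rfl⟩ := this
      exact ⟨a, by rw [hA, mem_filter]; exact ⟨ha, hs⟩, rfl⟩
  have hcardA : S.card = A.card := by
    rw [← hAS, Finset.card_image_of_injective _ hinj]
  rw [hcardA]
  apply h n hn A
  · intro a ha
    rw [hA, mem_filter, mem_Icc] at ha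
    exact ha.1.2
  · intro a ha b hb c hc e he hab heq
    rw [hA, mem_filter] at ha hb hc he
    have h1 : a ^ 2 + e ^ 2 = c ^ 2 + b ^ 2 := by
      have : ((a ^ 2 + e ^ 2 : ℕ) : ℤ) = ((c ^ 2 + b ^ 2 : ℕ) : ℤ) := by
        push_cast
        linarith
      exact_mod_cast this
    rcases hS.2 _ ha.2 _ he.2 _ hc.2 _ hb.2 h1 with ⟨h2, h3⟩ | ⟨h2, _⟩
    · exact ⟨hinj h2, (hinj h3).symm⟩
    · exact absurd (hinj h2) hab

end Pool.Agent.Results.MP_b27023_nt.HalfLogTwo
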